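import Pool.Agent.Helper4.AZ.Defs

set_option autoImplicit false

namespace Pool.Agent.SQ

open Module

theorem hnf_z {k : Type*} [Field k] {Q : Type*} [AddCommGroup Q] [Module k Q] [FiniteDimensional k Q] [Nontrivial Q]
    {J : Type*} [Fintype J] (F : J → Submodule k Q) :
    ∃ UU : Finset (Submodule k Q), (∀ U ∈ UU, U ≠ ⊥) ∧
      ∀ ρ : J → ℝ, ∃ U ∈ UU, ∀ U' : Submodule k Q, wtz F ρ U' * finrank k U ≤ wtz F ρ U * finrank k U' := by
  classical
  let v : Submodule k Q → Fin (finrank k Q + 1) × (J → Fin (finrank k Q + 1)) := fun U =>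
    (⟨finrank k U, Nat.lt_succ_of_le (Submodule.finrank_le U)⟩,
      fun j => ⟨finrank k ↥(U ⊓ F j), Nat.lt_succ_of_le (Submodule.finrank_le _)⟩)
  have h1 : (v '' {U | U ≠ ⊥}).Finite := Set.toFinite _
  have h2 : ((h1.toFinset : Finset _) : Set _) ⊆ v '' {U | U ≠ ⊥} := by
    rw [Set.Finite.coe_toFinset]
  obtain ⟨UU, hUU, hUi⟩ := Finset.subset_set_image_iff.1 h2
  refine ⟨UU, fun U hU => hUU hU, fun ρ => ?_⟩
  have hne : UU.Nonempty := by
    have h3 : v ⊤ ∈ h1.toFinset := by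
      rw [Set.Finite.mem_toFinset]
      exact ⟨⊤, top_ne_bot, rfl⟩
    rw [← hUi] at h3
    obtain ⟨U, hU, -⟩ := Finset.mem_image.1 h3
    exact ⟨U, hU⟩
  obtain ⟨U, hU, hmax⟩ := Finset.exists_max_image UU (fun U => wtz F ρ U / finrank k U) hne
  have hpos : ∀ U' : Submodule k Q, U' ≠ ⊥ → (0 : ℝ) < finrank k U' := by
    intro U' h
    exact_mod_cast Nat.pos_of_ne_zero fun h0 => h (Submodule.finrank_eq_zero.1 h0)
  refine ⟨U, hU, fun U' => ?_⟩
  by_cases hU' : U' = ⊥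
  · subst hU'
    have h3 : wtz F ρ ⊥ = 0 := by
      unfold wtz
      refine Finset.sum_eq_zero fun j _ => ?_
      rw [bot_inf_eq, finrank_bot, Nat.cast_zero, mul_zero]
    rw [h3, finrank_bot, Nat.cast_zero, mul_zero, zero_mul]
  · have h3 : v U' ∈ UU.image v := by
      rw [hUi, Set.Finite.mem_toFinset]
      exact ⟨U', hU', rfl⟩
    obtain ⟨U2, hU2, h4⟩ := Finset.mem_image.1 h3
    have h5 : finrank k U2 = finrank k U' := congrArg (fun t => (t.1 : ℕ)) h4
    have h6 : ∀ j, finrank k ↥(U2 ⊓ F j) = finrank k ↥(U' ⊓ F j) := fun j => congrArg (fun t => (t.2 j : ℕ)) h4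
    have h7 : wtz F ρ U2 = wtz F ρ U' := Finset.sum_congr rfl fun j _ => by rw [h6 j]
    have h8 := hmax U2 hU2
    rw [h7, h5, div_le_div_iff₀ (hpos U' hU') (hpos U (hUU hU))] at h8
    exact h8

end Pool.Agent.SQ
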