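import Pool.Agent.Helper42.SQ.GDefs

/-!
# AZ: an exceptional set for hyperplanes in general position which does not depend on `S` (definitions)
-/

set_option autoImplicit false

namespace Pool.Agent.SQ

open Module

/-- The weight of a subspace for weights on a family of subspaces. -/
noncomputable def wtz {k : Type*} [Field k] {Q : Type*} [AddCommGroup Q] [Module k Q] {J : Type*} [Fintype J]
    (F : J → Submodule k Q) (ρ : J → ℝ) (U : Submodule k Q) : ℝ :=
  ∑ j, ρ j * finrank k ↥(U ⊓ F j)

open Classical in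
/-- `A` is a list of `Bad` subspaces such that the inequality holds for the subspaces `N` (the linear forms which vanish at a
germ) which do not contain a member of `A`, for all weights on subspaces with the properties of the levels of valuations and
all constants `B d` (for subspaces of dimension `d`) which satisfy the inequality for the members of the list `FF`. -/
def ZL {k : Type*} [Field k] {n q : ℕ} (l : Fin q → Fin (n + 1) → k)
    (A FF : Finset (Submodule k (Fin (n + 1) → k))) : Prop :=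
  (∀ E ∈ A, Bad l E) ∧ ∀ N : Submodule k (Fin (n + 1) → k), N ≠ ⊤ → (∀ i, l i ∉ N) → (∀ E ∈ A, ¬ E ≤ N) →
    ∀ (m : ℕ) (W : Fin m → Submodule k (Fin (n + 1) → k)) (w : Fin m → ℝ), (∀ j, N ≤ W j) → (∀ j, W j ≠ ⊤) →
      (∀ j, 0 ≤ w j) → (∀ x, x ∉ N → ∑ j with x ∈ W j, w j ≤ 1) →
      ∀ B : ℕ → ℝ, (∀ d D : ℕ, 1 ≤ d → d ≤ D → D ≤ n + 1 → B d * D ≤ B D * d) →
        (∀ p : ℕ, p ≤ n → B (n + 1 - p) + 2 * p ≤ B (n + 1)) →
        (∀ E ∈ FF, ¬ E ≤ N → ∑ j, w j * ((finrank k ↥(E ⊓ W j) : ℝ) - finrank k ↥(E ⊓ N)) ≤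
          B (finrank k E - finrank k ↥(E ⊓ N))) →
        ∑ j, w j * ((Finset.univ.filter fun i => l i ∈ W j).card : ℝ) ≤ B (n + 1)

end Pool.Agent.SQ
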