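import Pool.Agent.Helper4.AZ.HNF
import Pool.Agent.Helper42.SQ.LIN

/-!
# AZ, block Z2: the tree
-/

set_option autoImplicit false

namespace Pool.Agent.SQ

open Module

private theorem finrank_comap_z4 {k : Type*} [Field k] {V : Type*} [AddCommGroup V] [Module k V] [FiniteDimensional k V]
    (E : Submodule k V) (X : Submodule k (V ⧸ E)) : finrank k (X.comap E.mkQ) = finrank k X + finrank k E := by
  have h1 : E ≤ X.comap E.mkQ := by
    intro x hx
    rw [Submodule.mem_comap, (Submodule.Quotient.mk_eq_zero E).2 hx |> fun h => (show E.mkQ x = 0 from h)]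
    exact X.zero_mem
  have h2 := LinearMap.finrank_range_add_finrank_ker (E.mkQ.domRestrict (X.comap E.mkQ))
  have h3 : LinearMap.range (E.mkQ.domRestrict (X.comap E.mkQ)) = X := by
    rw [LinearMap.range_domRestrict, Submodule.map_comap_eq_of_surjective E.mkQ_surjective]
  have h4 : finrank k (LinearMap.ker (E.mkQ.domRestrict (X.comap E.mkQ))) = finrank k E := by
    have h5 : LinearMap.ker (E.mkQ.domRestrict (X.comap E.mkQ)) = E.comap (X.comap E.mkQ).subtype := by
      ext x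
      simp [LinearMap.mem_ker]
    rw [h5]
    exact (Submodule.comapSubtypeEquivOfLe h1).finrank_eq
  rw [h3, h4] at h2
  exact h2.symm

/-- one step of the tree -/
private theorem step_z4 {k : Type*} [Field k] {n q : ℕ} (l : Fin q → Fin (n + 1) → k) (hl : GenPos l)
    (E : Submodule k (Fin (n + 1) → k)) (hEt : E ≠ ⊤) (hEl : ∀ i, l i ∉ E) (hb : ¬ Bad l E) :
    ∃ T : Finset (Submodule k (Fin (n + 1) → k)), (∀ E' ∈ T, E < E') ∧
      ∀ N : Submodule k (Fin (n + 1) → k), E ≤ N →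
        ∀ (m : ℕ) (W : Fin m → Submodule k (Fin (n + 1) → k)) (w : Fin m → ℝ), (∀ j, N ≤ W j) → (∀ j, W j ≠ ⊤) →
        (∀ j, 0 ≤ w j) → (open Classical in ∀ x, x ∉ N → ∑ j with x ∈ W j, w j ≤ 1) →
        ∀ B : ℕ → ℝ, (∀ d D : ℕ, 1 ≤ d → d ≤ D → D ≤ n + 1 → B d * D ≤ B D * d) →
        (∀ p : ℕ, p ≤ n → B (n + 1 - p) + 2 * p ≤ B (n + 1)) →
        (∀ E ∈ T, ¬ E ≤ N → ∑ j, w j * ((finrank k ↥(E ⊓ W j) : ℝ) - finrank k ↥(E ⊓ N)) ≤
          B (finrank k E - finrank k ↥(E ⊓ N))) →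
        (open Classical in B (n + 1) < ∑ j, w j * ((Finset.univ.filter fun i => l i ∈ W j).card : ℝ)) →
        ∃ E' ∈ T, E' ≤ N := by
  classical
  set π := E.mkQ with hπ
  have hπs : Function.Surjective π := E.mkQ_surjective
  have hπ0 : ∀ x, π x = 0 ↔ x ∈ E := fun x => Submodule.Quotient.mk_eq_zero E
  have hcm : ∀ X : Submodule k (Fin (n + 1) → k), E ≤ X → (X.map π).comap π = X := by
    intro X hX
    rw [Submodule.comap_map_eq, hπ, Submodule.ker_mkQ, sup_eq_left.2 hX]
  have hnt : Nontrivial ((Fin (n + 1) → k) ⧸ E) := Submodule.Quotient.nontrivial_iff.2 hEt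
  let F : Finset (Fin q) → Submodule k ((Fin (n + 1) → k) ⧸ E) := fun J =>
    Submodule.span k ((fun i => π (l i)) '' (J : Set (Fin q)))
  obtain ⟨UU, hU0, hU⟩ := hnf_z F
  let T1 : Finset (Submodule k (Fin (n + 1) → k)) := UU.image (Submodule.comap π)
  let T2 : Finset (Submodule k (Fin (n + 1) → k)) :=
    ((Finset.univ : Finset (Finset (Finset (Fin q)))).image fun 𝒥 => Submodule.comap π (⨅ J ∈ 𝒥, F J)).filter (E < ·)
  refine ⟨T1 ∪ T2, ?_, ?_⟩
  · intro E' hE'
    rcases Finset.mem_union.1 hE' with h | h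
    · obtain ⟨U, hU1, rfl⟩ := Finset.mem_image.1 h
      refine lt_of_le_of_ne ?_ ?_
      · intro x hx
        rw [Submodule.mem_comap, (hπ0 x).2 hx]
        exact U.zero_mem
      · intro h2
        apply hU0 U hU1
        rw [← Submodule.map_comap_eq_of_surjective hπs U, ← h2, eq_bot_iff]
        rintro _ ⟨x, hx, rfl⟩
        exact (Submodule.mem_bot k).2 ((hπ0 x).2 hx)
    · exact (Finset.mem_filter.1 h).2
  intro N hEN m W w hNW hWt hw hx B hB1 hB2 hd hbig
  let J : Fin m → Finset (Fin q) := fun j => Finset.univ.filter fun i => l i ∈ W j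
  have hEW : ∀ j, E ≤ W j := fun j => hEN.trans (hNW j)
  have hFW : ∀ j, F (J j) ≤ (W j).map π := by
    intro j
    refine Submodule.span_le.2 ?_
    rintro _ ⟨i, hi, rfl⟩
    exact Submodule.mem_map_of_mem (Finset.mem_filter.1 (Finset.mem_coe.1 hi)).2
  have hFc : ∀ j x, π x ∈ F (J j) → x ∈ W j := by
    intro j x h
    rw [← hcm (W j) (hEW j)]
    exact hFW j h
  have hFt : ∀ j, F (J j) ≠ ⊤ := by
    intro j h
    apply hWt j
    rw [eq_top_iff]
    intro x _
    exact hFc j x (by rw [h]; trivial)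
  by_cases hc : ∃ x : (Fin (n + 1) → k) ⧸ E, x ≠ 0 ∧ 1 < ∑ j with x ∈ F (J j), w j
  · -- a heavy vector
    obtain ⟨x, hx0, hx1⟩ := hc
    obtain ⟨x', rfl⟩ := hπs x
    let 𝒥 : Finset (Finset (Fin q)) := Finset.univ.filter fun J => π x' ∈ F J
    have hxI : π x' ∈ ⨅ J ∈ 𝒥, F J := by
      rw [Submodule.mem_iInf]
      intro J
      rw [Submodule.mem_iInf]
      intro hJ
      exact (Finset.mem_filter.1 hJ).2
    refine ⟨Submodule.comap π (⨅ J ∈ 𝒥, F J), Finset.mem_union_right _ (Finset.mem_filter.2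
      ⟨Finset.mem_image.2 ⟨𝒥, Finset.mem_univ _, rfl⟩, ?_⟩), ?_⟩
    · refine lt_of_le_of_ne ?_ ?_
      · intro y hy
        rw [Submodule.mem_comap, (hπ0 y).2 hy]
        exact Submodule.zero_mem _
      · intro h2
        apply hx0
        rw [hπ0, h2]
        exact hxI
    · intro y hy
      by_contra hyN
      have h1 := hx y hyN
      have h2 : ∑ j with π x' ∈ F (J j), w j ≤ ∑ j with y ∈ W j, w j := by
        refine Finset.sum_le_sum_of_subset_of_nonneg ?_ fun j _ _ => hw j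
        intro j hj
        rw [Finset.mem_filter] at hj ⊢
        refine ⟨Finset.mem_univ _, hFc j y ?_⟩
        have h3 : J j ∈ 𝒥 := Finset.mem_filter.2 ⟨Finset.mem_univ _, hj.2⟩
        have h4 : (⨅ J ∈ 𝒥, F J) ≤ F (J j) := iInf₂_le (J j) h3
        exact h4 hy
      linarith
  · push Not at hc
    have hC := comb_of_not_bad l hl E hEl hb
    have h1 := hC m (fun j => F (J j)) w hFt hw (fun x hx0 => by
      convert hc x hx0)
    -- the number of forms
    have h2 : ∑ j, w j * ((Finset.univ.filter fun i => l i ∈ W j).card : ℝ) ≤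
        ∑ j, w j * ((Finset.univ.filter fun i => E.mkQ (l i) ∈ F (J j)).card : ℝ) := by
      refine Finset.sum_le_sum fun j _ => mul_le_mul_of_nonneg_left ?_ (hw j)
      rw [Nat.cast_le]
      refine Finset.card_le_card ?_
      intro i hi
      rw [Finset.mem_filter] at hi ⊢
      refine ⟨Finset.mem_univ _, Submodule.subset_span ⟨i, ?_, rfl⟩⟩
      exact Finset.mem_coe.2 (Finset.mem_filter.2 hi)
    have h3 : ∑ j, w j * ((Finset.univ.filter fun i => l i ∈ W j).card : ℝ) ≤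
        ∑ j, w j * (finrank k (F (J j)) : ℝ) + 2 * finrank k E := by
      refine h2.trans (le_trans (le_of_eq ?_) h1)
      refine Finset.sum_congr rfl fun j _ => ?_
      congr
    -- the maximal slope
    let ρ : Finset (Fin q) → ℝ := fun J' => ∑ j with J j = J', w j
    have hwt : ∀ U, wtz F ρ U = ∑ j, w j * (finrank k ↥(U ⊓ F (J j)) : ℝ) := by
      intro U
      unfold wtz
      rw [← Finset.sum_fiberwise Finset.univ J fun j => w j * (finrank k ↥(U ⊓ F (J j)) : ℝ)]
      refine Finset.sum_congr rfl fun J' _ => ?_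
      rw [Finset.sum_mul]
      refine Finset.sum_congr rfl fun j hj => ?_
      rw [(Finset.mem_filter.1 hj).2]
    obtain ⟨U, hUU, hUmax⟩ := hU ρ
    have hE'T : Submodule.comap π U ∈ T1 ∪ T2 := Finset.mem_union_left _ (Finset.mem_image_of_mem _ hUU)
    refine ⟨_, hE'T, ?_⟩
    by_contra hUN
    have h4 := hd _ hE'T hUN
    have hcap : ∀ X : Submodule k (Fin (n + 1) → k), E ≤ X →
        finrank k ↥(Submodule.comap π U ⊓ X) = finrank k ↥(U ⊓ X.map π) + finrank k E := by
      intro X hX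
      rw [← finrank_comap_z4, ← hπ, Submodule.comap_inf, hcm X hX]
    have hfU : finrank k (Submodule.comap π U) = finrank k U + finrank k E := finrank_comap_z4 E U
    have hQ : finrank k ((Fin (n + 1) → k) ⧸ E) + finrank k E = n + 1 := by
      rw [Submodule.finrank_quotient_add_finrank, Module.finrank_fin_fun]
    rw [hcap N hEN, hfU] at h4
    have hlt : finrank k ↥(U ⊓ N.map π) < finrank k U := by
      refine Submodule.finrank_lt_finrank_of_lt (lt_of_le_of_ne inf_le_left fun h => hUN ?_)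
      rw [← hcm N hEN]
      exact Submodule.comap_mono (inf_eq_left.1 h)
    have hUd : finrank k U ≤ finrank k ((Fin (n + 1) → k) ⧸ E) := Submodule.finrank_le U
    have h5 : ∀ j, (finrank k ↥(U ⊓ F (J j)) : ℝ) - finrank k ↥(U ⊓ N.map π ⊓ F (J j)) ≤
        (finrank k ↥(Submodule.comap π U ⊓ W j) : ℝ) - (finrank k ↥(U ⊓ N.map π) + finrank k E : ℕ) := by
      intro j
      rw [hcap (W j) (hEW j)]
      have h6 := Submodule.finrank_sup_add_finrank_inf_eq (U ⊓ F (J j)) (U ⊓ N.map π)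
      have h7 : (U ⊓ F (J j)) ⊓ (U ⊓ N.map π) = U ⊓ N.map π ⊓ F (J j) := by
        rw [inf_inf_inf_comm, inf_idem, inf_assoc, inf_comm (F (J j))]
      have h8 : finrank k ↥((U ⊓ F (J j)) ⊔ (U ⊓ N.map π)) ≤ finrank k ↥(U ⊓ (W j).map π) := by
        refine Submodule.finrank_mono (sup_le (inf_le_inf_left U (hFW j)) (inf_le_inf_left U (Submodule.map_mono (hNW j))))
      rw [h7] at h6
      have h9 : (finrank k ↥((U ⊓ F (J j)) ⊔ (U ⊓ N.map π)) : ℝ) + finrank k ↥(U ⊓ N.map π ⊓ F (J j)) =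
          finrank k ↥(U ⊓ F (J j)) + finrank k ↥(U ⊓ N.map π) := by exact_mod_cast h6
      have h10 : (finrank k ↥((U ⊓ F (J j)) ⊔ (U ⊓ N.map π)) : ℝ) ≤ finrank k ↥(U ⊓ (W j).map π) := by exact_mod_cast h8
      push_cast
      linarith
    have h6 : wtz F ρ U - wtz F ρ (U ⊓ N.map π) ≤ B (finrank k U + finrank k E - (finrank k ↥(U ⊓ N.map π) + finrank k E)) := by
      refine le_trans ?_ h4
      rw [hwt, hwt, ← Finset.sum_sub_distrib]
      refine Finset.sum_le_sum fun j _ => ?_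
      rw [← mul_sub]
      exact mul_le_mul_of_nonneg_left (h5 j) (hw j)
    rw [Nat.add_sub_add_right] at h6
    have h7 := hUmax (U ⊓ N.map π)
    have h8 := hUmax ⊤
    rw [finrank_top] at h8
    have h9 : wtz F ρ ⊤ = ∑ j, w j * (finrank k (F (J j)) : ℝ) := by
      rw [hwt]
      refine Finset.sum_congr rfl fun j _ => ?_
      rw [top_inf_eq]
    have hp : finrank k E ≤ n := by
      have := Submodule.finrank_lt hEt
      rw [Module.finrank_fin_fun] at this
      omega
    have h10 := hB2 (finrank k E) hp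
    have hD : n + 1 - finrank k E = finrank k ((Fin (n + 1) → k) ⧸ E) := by omega
    rw [hD] at h10
    have h11 : B (finrank k ((Fin (n + 1) → k) ⧸ E)) < wtz F ρ ⊤ := by
      rw [h9]
      linarith
    have h12 := hB1 (finrank k U - finrank k ↥(U ⊓ N.map π)) (finrank k ((Fin (n + 1) → k) ⧸ E)) (by omega) (by omega) (by omega)
    obtain ⟨a, ha⟩ : ∃ a : ℝ, a = finrank k U := ⟨_, rfl⟩
    obtain ⟨b, hb'⟩ : ∃ b : ℝ, b = finrank k ↥(U ⊓ N.map π) := ⟨_, rfl⟩
    obtain ⟨D, hD'⟩ : ∃ D : ℝ, D = finrank k ((Fin (n + 1) → k) ⧸ E) := ⟨_, rfl⟩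
    have hcast : ((finrank k U - finrank k ↥(U ⊓ N.map π) : ℕ) : ℝ) = a - b := by
      rw [Nat.cast_sub hlt.le, ha, hb']
    rw [hcast, ← hD'] at h12
    rw [← ha, ← hb'] at h7
    rw [← ha, ← hD'] at h8
    have hab : b < a := by
      rw [ha, hb']
      exact_mod_cast hlt
    have ha0 : 0 < a := lt_of_le_of_lt (by rw [hb']; positivity) hab
    have hD0 : 0 < D := by
      have : a ≤ D := by
        rw [ha, hD']
        exact_mod_cast hUd
      linarith
    -- (a - b) wt U ≤ a B d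
    have h13 : (a - b) * wtz F ρ U ≤ a * B (finrank k U - finrank k ↥(U ⊓ N.map π)) := by
      have := mul_le_mul_of_nonneg_left h6 ha0.le
      linarith
    have h14 : (a - b) * wtz F ρ U * D ≤ a * (B (finrank k ((Fin (n + 1) → k) ⧸ E)) * (a - b)) := by
      refine (mul_le_mul_of_nonneg_right h13 hD0.le).trans ?_
      rw [mul_assoc]
      exact mul_le_mul_of_nonneg_left h12 ha0.le
    have h15 : (a - b) * (wtz F ρ ⊤ * a) ≤ (a - b) * (wtz F ρ U * D) :=
      mul_le_mul_of_nonneg_left h8 (by linarith)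
    have h16 : a * (a - b) * wtz F ρ ⊤ ≤ a * (a - b) * B (finrank k ((Fin (n + 1) → k) ⧸ E)) := by
      nlinarith
    have h17 : 0 < a * (a - b) := mul_pos ha0 (by linarith)
    have := le_of_mul_le_mul_left h16 h17
    linarith

private theorem tree_z4 {k : Type*} [Field k] {n q : ℕ} (l : Fin q → Fin (n + 1) → k) (hl : GenPos l) (t : ℕ) :
    ∀ E : Submodule k (Fin (n + 1) → k), n + 1 ≤ finrank k E + t →
    ∃ A FF : Finset (Submodule k (Fin (n + 1) → k)), (∀ E ∈ A, Bad l E) ∧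
      ∀ N : Submodule k (Fin (n + 1) → k), E ≤ N → N ≠ ⊤ → (∀ i, l i ∉ N) → (∀ E ∈ A, ¬ E ≤ N) →
        ∀ (m : ℕ) (W : Fin m → Submodule k (Fin (n + 1) → k)) (w : Fin m → ℝ), (∀ j, N ≤ W j) → (∀ j, W j ≠ ⊤) →
        (∀ j, 0 ≤ w j) → (open Classical in ∀ x, x ∉ N → ∑ j with x ∈ W j, w j ≤ 1) →
        ∀ B : ℕ → ℝ, (∀ d D : ℕ, 1 ≤ d → d ≤ D → D ≤ n + 1 → B d * D ≤ B D * d) →
        (∀ p : ℕ, p ≤ n → B (n + 1 - p) + 2 * p ≤ B (n + 1)) →
        (∀ E ∈ FF, ¬ E ≤ N → ∑ j, w j * ((finrank k ↥(E ⊓ W j) : ℝ) - finrank k ↥(E ⊓ N)) ≤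
          B (finrank k E - finrank k ↥(E ⊓ N))) →
        (open Classical in ∑ j, w j * ((Finset.univ.filter fun i => l i ∈ W j).card : ℝ) ≤ B (n + 1)) := by
  classical
  induction t with
  | zero =>
    intro E hE
    refine ⟨∅, ∅, by simp, fun N hEN hNt => ?_⟩
    exfalso
    apply hNt
    have h1 : finrank k E ≤ finrank k N := Submodule.finrank_mono hEN
    refine Submodule.eq_top_of_finrank_eq (le_antisymm (Submodule.finrank_le N) ?_)
    rw [Module.finrank_fin_fun]
    omega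
  | succ t ih =>
    intro E hE
    by_cases hEt : E = ⊤
    · refine ⟨∅, ∅, by simp, fun N hEN hNt => ?_⟩
      exact absurd (top_le_iff.1 (hEt ▸ hEN)) hNt
    by_cases hEl : ∀ i, l i ∉ E
    swap
    · push Not at hEl
      obtain ⟨i, hi⟩ := hEl
      exact ⟨∅, ∅, by simp, fun N hEN _ hlN => absurd (hEN hi) (hlN i)⟩
    by_cases hb : Bad l E
    · exact ⟨{E}, ∅, by simpa using hb, fun N hEN _ _ hA => absurd hEN (hA E (Finset.mem_singleton_self E))⟩
    obtain ⟨T, hT, hstep⟩ := step_z4 l hl E hEt hEl hb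
    have h1 : ∀ E' : T, n + 1 ≤ finrank k E'.1 + t := by
      intro E'
      have := Submodule.finrank_lt_finrank_of_lt (hT E'.1 E'.2)
      omega
    have h2 := fun E' : T => ih E'.1 (h1 E')
    choose A FF hA hFF using h2
    refine ⟨T.attach.biUnion A, T ∪ T.attach.biUnion FF, ?_, ?_⟩
    · intro E' hE'
      obtain ⟨E1, -, h3⟩ := Finset.mem_biUnion.1 hE'
      exact hA E1 E' h3
    · intro N hEN hNt hlN hAN m W w hNW hWt hw hx B hB1 hB2 hd
      by_contra hcon
      push Not at hcon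
      obtain ⟨E', hE'T, hE'N⟩ := hstep N hEN m W w hNW hWt hw hx B hB1 hB2
        (fun E1 hE1 => hd E1 (Finset.mem_union_left _ hE1)) hcon
      have h3 := hFF ⟨E', hE'T⟩ N hE'N hNt hlN
        (fun E1 hE1 => hAN E1 (Finset.mem_biUnion.2 ⟨⟨E', hE'T⟩, Finset.mem_attach _ _, hE1⟩)) m W w hNW hWt hw hx B hB1 hB2
        (fun E1 hE1 => hd E1 (Finset.mem_union_right _ (Finset.mem_biUnion.2 ⟨⟨E', hE'T⟩, Finset.mem_attach _ _, hE1⟩)))
      exact absurd h3 (not_le.2 hcon)

/-- The tree: the list of `Bad` subspaces depends only on the forms. -/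
theorem exists_ZL {k : Type*} [Field k] {n q : ℕ} (l : Fin q → Fin (n + 1) → k) (hl : GenPos l) :
    ∃ A FF : Finset (Submodule k (Fin (n + 1) → k)), ZL l A FF := by
  obtain ⟨A, FF, hA, h⟩ := tree_z4 l hl (n + 1) ⊥ (by omega)
  exact ⟨A, FF, hA, fun N => h N bot_le⟩

end Pool.Agent.SQ
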